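import Pool.Agent.Helper538.CpK

set_option autoImplicit false

namespace Pool.Agent.Results.MP_e5cb06_gt.NotTimesLine

/-- `C_p(Y)`: the linear subspace of `Y → ℝ` (with the product topology) formed by the continuous
functions (the range of the coercion from `C(Y, ℝ)` to `Y → ℝ`). -/
def Cp (Y : Type) [TopologicalSpace Y] : Submodule ℝ (Y → ℝ) :=
  LinearMap.range (ContinuousMap.coeFnLinearMap ℝ : C(Y, ℝ) →ₗ[ℝ] (Y → ℝ))

lemma mem_Cp {Y : Type} [TopologicalSpace Y] {f : Y → ℝ} : f ∈ Cp Y ↔ Continuous f := by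
  constructor
  · rintro ⟨g, rfl⟩
    exact g.continuous
  · intro h
    exact ⟨⟨f, h⟩, rfl⟩

/-- There is a nonempty Tychonoff space `Y` with `C_p(Y ⊕ Y)` linearly homeomorphic to `C_p(Y)`
and `C_p(Y) × ℝ` not linearly homeomorphic to `C_p(Y)`. -/
theorem result :
    ∃ (Y : Type) (_ : TopologicalSpace Y), T35Space Y ∧ Nonempty Y ∧
      Nonempty (Cp (Y ⊕ Y) ≃L[ℝ] Cp Y) ∧ ¬ Nonempty (Cp Y ≃L[ℝ] (Cp Y × ℝ)) := by
  obtain ⟨E, _, _, _, _, S, Y, hY⟩ := Pool.Agent.Helper538.Cp.exists_good
  haveI hne : Nonempty Y := by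
    obtain ⟨y, hy, -⟩ := hY.many ∅ Set.countable_empty
    exact ⟨⟨y, hy⟩⟩
  refine ⟨Y, inferInstance, inferInstance, hne, ?_, ?_⟩
  · obtain ⟨T, R, h1, h2, h3, h4, h5, h6, h7⟩ := hY.sum_maps
    have hT0 : T 0 = 0 := by
      have := h5 1 0 0 continuous_const continuous_const
      rw [smul_zero, add_zero, one_smul] at this
      exact left_eq_add.mp this
    refine ⟨{ toFun := fun f => ⟨T f.1, mem_Cp.mpr (h1 f.1 (mem_Cp.mp f.2))⟩
              invFun := fun g => ⟨R g.1, mem_Cp.mpr (h2 g.1 (mem_Cp.mp g.2))⟩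
              map_add' := ?_
              map_smul' := ?_
              left_inv := ?_
              right_inv := ?_
              continuous_toFun := ?_
              continuous_invFun := ?_ }⟩
    · intro f g
      apply Subtype.ext
      have := h5 1 f.1 g.1 (mem_Cp.mp f.2) (mem_Cp.mp g.2)
      rw [one_smul, one_smul] at this
      exact this
    · intro a f
      apply Subtype.ext
      have := h5 a f.1 0 (mem_Cp.mp f.2) continuous_const
      rw [add_zero, hT0, add_zero] at this
      exact this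
    · intro f
      exact Subtype.ext (h3 f.1 (mem_Cp.mp f.2))
    · intro g
      exact Subtype.ext (h4 g.1 (mem_Cp.mp g.2))
    · have h8 : Continuous (fun f : Cp (Y ⊕ Y) => (⟨f.1, mem_Cp.mp f.2⟩ :
          {f : Y ⊕ Y → ℝ | Continuous f})) :=
        Continuous.subtype_mk continuous_subtype_val _
      exact Continuous.subtype_mk
        ((continuousOn_iff_continuous_domRestrict.mp h6).comp h8) _
    · have h8 : Continuous (fun f : Cp Y => (⟨f.1, mem_Cp.mp f.2⟩ :
          {f : Y → ℝ | Continuous f})) :=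
        Continuous.subtype_mk continuous_subtype_val _
      exact Continuous.subtype_mk
        ((continuousOn_iff_continuous_domRestrict.mp h7).comp h8) _
  · rintro ⟨e⟩
    classical
    refine hY.no_map
      (fun p => if h : Continuous p.1 then (e.symm (⟨p.1, mem_Cp.mpr h⟩, p.2)).1 else 0)
      (fun g => if h : Continuous g then
        ((e ⟨g, mem_Cp.mpr h⟩).1.1, (e ⟨g, mem_Cp.mpr h⟩).2) else 0)
      ?_ ?_ ?_ ?_ ?_ ?_ ?_
    · intro p hp
      simp only [dif_pos hp]
      exact mem_Cp.mp (e.symm (⟨p.1, mem_Cp.mpr hp⟩, p.2)).2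
    · intro g hg
      simp only [dif_pos hg]
      exact mem_Cp.mp (e ⟨g, mem_Cp.mpr hg⟩).1.2
    · intro p hp
      have h1 : Continuous ((e.symm (⟨p.1, mem_Cp.mpr hp⟩, p.2)).1 : Y → ℝ) :=
        mem_Cp.mp (e.symm (⟨p.1, mem_Cp.mpr hp⟩, p.2)).2
      simp only [dif_pos hp]
      rw [dif_pos h1]
      have h2 : (⟨(e.symm (⟨p.1, mem_Cp.mpr hp⟩, p.2)).1, mem_Cp.mpr h1⟩ : Cp Y)
          = e.symm (⟨p.1, mem_Cp.mpr hp⟩, p.2) := Subtype.ext rfl
      rw [h2, e.apply_symm_apply]
    · intro g hg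
      have h1 : Continuous ((e ⟨g, mem_Cp.mpr hg⟩).1.1 : Y → ℝ) :=
        mem_Cp.mp (e ⟨g, mem_Cp.mpr hg⟩).1.2
      simp only [dif_pos hg]
      rw [dif_pos h1]
      have h2 : ((⟨(e ⟨g, mem_Cp.mpr hg⟩).1.1, mem_Cp.mpr h1⟩ : Cp Y),
          (e ⟨g, mem_Cp.mpr hg⟩).2) = e ⟨g, mem_Cp.mpr hg⟩ := rfl
      rw [h2, e.symm_apply_apply]
    · intro a p q hp hq
      have hpq : Continuous (a • p + q).1 := (hp.const_smul a).add hq
      simp only [dif_pos hp, dif_pos hq]
      rw [dif_pos hpq]
      have h2 : ((⟨(a • p + q).1, mem_Cp.mpr hpq⟩ : Cp Y), (a • p + q).2)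
          = a • ((⟨p.1, mem_Cp.mpr hp⟩ : Cp Y), p.2)
            + ((⟨q.1, mem_Cp.mpr hq⟩ : Cp Y), q.2) := rfl
      rw [h2, map_add, map_smul]
      rfl
    · rw [continuousOn_iff_continuous_domRestrict]
      have h1 : Continuous (fun p : {p : (Y → ℝ) × ℝ | Continuous p.1} =>
          ((⟨p.1.1, mem_Cp.mpr p.2⟩ : Cp Y), p.1.2)) := by
        refine Continuous.prodMk ?_ (continuous_snd.comp continuous_subtype_val)
        exact Continuous.subtype_mk (continuous_fst.comp continuous_subtype_val) _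
      refine (continuous_subtype_val.comp (e.symm.continuous.comp h1)).congr ?_
      intro p
      have hp : Continuous p.1.1 := p.2
      simp only [Set.domRestrict_apply, dif_pos hp]
      rfl
    · rw [continuousOn_iff_continuous_domRestrict]
      have h1 : Continuous (fun g : {g : Y → ℝ | Continuous g} =>
          (⟨g.1, mem_Cp.mpr g.2⟩ : Cp Y)) :=
        Continuous.subtype_mk continuous_subtype_val _
      have h2 : Continuous (fun q : Cp Y × ℝ => ((q.1.1 : Y → ℝ), q.2)) :=
        (continuous_subtype_val.comp continuous_fst).prodMk continuous_snd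
      refine (h2.comp (e.continuous.comp h1)).congr ?_
      intro g
      have hg : Continuous g.1 := g.2
      simp only [Set.domRestrict_apply, dif_pos hg]
      rfl

end Pool.Agent.Results.MP_e5cb06_gt.NotTimesLine
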